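import Pool.Agent.X230.FS.Main
import Pool.Agent.X249.LD.Low

set_option autoImplicit false

/-!
# Feature spaces and DNF formulas
-/

namespace Pool.Agent.X245.DFS

open Finset Pool.Agent.H963J Pool.Agent.X230.FS Pool.Agent.X249.LD

noncomputable section

/-- orthogonality: the sum of the best squared correlations with the parities -/
theorem fit_sum_le {m : ℕ} (k : ℕ) (W : Submodule ℝ ((Fin m → Bool) → ℝ)) :
    ∑ S ∈ powersetCard k (univ : Finset (Fin m)), fit W (par S) ≤ Module.finrank ℝ W := by
  obtain ⟨e, he, hW⟩ := exists_basis W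
  have h2m : (0 : ℝ) < 2 ^ m := by positivity
  have h1 : ∀ S : Finset (Fin m), fit W (par S) ≤ 2 ^ m * ∑ i, hat (e i) S ^ 2 := by
    intro S
    apply ciSup_le
    rintro ⟨h, hh⟩
    have h3 := hW h hh (fun x => sg (par S x))
    have h4 : 2 ^ m * ∑ i, hat (e i) S ^ 2 =
        (∑ i, (∑ x, sg (par S x) * e i x) ^ 2) / (2 ^ m : ℝ) := by
      rw [Finset.mul_sum, Finset.sum_div]
      refine Finset.sum_congr rfl fun i _ => ?_
      have h5 : ∑ x, sg (par S x) * e i x = ∑ x, e i x * chi x S :=
        Finset.sum_congr rfl fun x _ => by rw [sg_par, cr_eq, mul_comm]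
      rw [h5]
      unfold hat
      field_simp
    rw [h4]
    have h5 : 0 ≤ ∑ i, (∑ x, sg (par S x) * e i x) ^ 2 :=
      Finset.sum_nonneg fun _ _ => sq_nonneg _
    show corrSq (par S) h ≤ _
    unfold corrSq
    rcases (Finset.sum_nonneg fun (x : Fin m → Bool) _ => sq_nonneg (h x)).eq_or_lt' with h6 | h6
    · rw [h6, mul_zero, div_zero]
      positivity
    · rw [div_le_div_iff₀ (by positivity) h2m]
      nlinarith
  refine (Finset.sum_le_sum fun S _ => h1 S).trans ?_
  rw [← Finset.mul_sum, Finset.sum_comm]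
  have h3 : ∀ i, ∑ S ∈ powersetCard k (univ : Finset (Fin m)), hat (e i) S ^ 2 ≤ 1 / 2 ^ m := by
    intro i
    calc ∑ S ∈ powersetCard k (univ : Finset (Fin m)), hat (e i) S ^ 2
        ≤ ∑ S, hat (e i) S ^ 2 := Finset.sum_le_sum_of_subset_of_nonneg (Finset.subset_univ _)
          fun _ _ _ => sq_nonneg _
      _ = 1 / 2 ^ m := by rw [parseval, he i]
  refine (mul_le_mul_of_nonneg_left (Finset.sum_le_sum fun i _ => h3 i) h2m.le).trans ?_
  rw [Finset.sum_const, Finset.card_univ, Fintype.card_fin, nsmul_eq_mul]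
  apply le_of_eq
  field_simp

/-- the mean square error of a function of the space is at least `1 - fit` -/
theorem mse_ge {m : ℕ} {W : Submodule ℝ ((Fin m → Bool) → ℝ)} {h : (Fin m → Bool) → ℝ}
    (hh : h ∈ W) (f : (Fin m → Bool) → Bool) :
    1 - fit W f ≤ (∑ x, (sg (f x) - h x) ^ 2) / 2 ^ m := by
  have h2m : (0 : ℝ) < 2 ^ m := by positivity
  have h1 := le_fit hh f
  have h2 : ∑ x, (sg (f x) - h x) ^ 2 = 2 ^ m - 2 * ∑ x, sg (f x) * h x + ∑ x, h x ^ 2 := by
    rw [← sum_sg_sq f, Finset.mul_sum, ← Finset.sum_sub_distrib, ← Finset.sum_add_distrib]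
    exact Finset.sum_congr rfl fun x _ => by ring
  rw [h2, le_div_iff₀ h2m]
  unfold corrSq at h1
  rcases (Finset.sum_nonneg fun (x : Fin m → Bool) _ => sq_nonneg (h x)).eq_or_lt' with h6 | h6
  · have h7 : ∀ x, h x = 0 := by
      intro x
      have := (Finset.sum_eq_zero_iff_of_nonneg fun (x : Fin m → Bool) _ => sq_nonneg (h x)).1 h6 x
        (Finset.mem_univ _)
      exact pow_eq_zero_iff (two_ne_zero) |>.1 this
    have h8 : ∑ x, sg (f x) * h x = 0 := Finset.sum_eq_zero fun x _ => by rw [h7 x, mul_zero]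
    rw [h8, h6]
    have := fit_nonneg W f
    nlinarith
  · rw [div_le_iff₀ (by positivity)] at h1
    obtain ⟨a, ha⟩ : ∃ a, a = ∑ x, sg (f x) * h x := ⟨_, rfl⟩
    obtain ⟨b, hb⟩ : ∃ b, b = ∑ x, h x ^ 2 := ⟨_, rfl⟩
    rw [← ha, ← hb] at h1 ⊢
    rw [← hb] at h6
    -- `a² ≤ fit * 2^m * b`, and `2 a ≤ fit * 2^m + b`
    obtain ⟨c, hc⟩ : ∃ c, c = fit W f * 2 ^ m := ⟨_, rfl⟩
    have h9 : a ^ 2 ≤ c * b := by rw [hc]; linarith
    have hc0 : 0 ≤ c := by rw [hc]; have := fit_nonneg W f; positivity
    have h10 : 2 * a ≤ c + b := by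
      by_contra hcon
      push Not at hcon
      nlinarith [sq_nonneg (c - b)]
    have h11 : (1 - fit W f) * 2 ^ m = 2 ^ m - c := by rw [hc]; ring
    rw [h11]
    linarith

/-- The expectation, over the randomness and `N` uniform examples of the target `f`, of the best
squared correlation with `f` of a function in the feature space computed by the learner. -/
def valueAt {m N D Q : ℕ} (L : FeatureLearner m N D Q) (f : (Fin m → Bool) → Bool) : ℝ :=
  letI := L.fin
  ∑ ω, L.prob ω * ((∑ X : Fin N → Fin m → Bool,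
    fit (L.space ω X (L.info ω X (lab f X))) f) / 2 ^ (N * m))

open Classical in
/-- The probability, over the randomness and `N` uniform examples of the target `f`, that some
function in the feature space has squared correlation at least `r` with `f`. -/
def successAt {m N D Q : ℕ} (L : FeatureLearner m N D Q) (r : ℝ)
    (f : (Fin m → Bool) → Bool) : ℝ :=
  letI := L.fin
  ∑ ω, L.prob ω * (((univ.filter (fun X : Fin N → Fin m → Bool =>
    ∃ h ∈ L.space ω X (L.info ω X (lab f X)), r ≤ corrSq f h)).card : ℝ) / 2 ^ (N * m))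

theorem value_sum {m N D Q : ℕ} (k : ℕ) (L : FeatureLearner m N D Q) :
    ∑ S ∈ powersetCard k (univ : Finset (Fin m)), valueAt L (par S) ≤ Q * D := by
  letI := L.fin
  have h1 : ∀ (ω : L.Ω) (X : Fin N → Fin m → Bool),
      ∑ S ∈ powersetCard k (univ : Finset (Fin m)),
        fit (L.space ω X (L.info ω X (lab (par S) X))) (par S) ≤ Q * D := by
    intro ω X
    calc ∑ S ∈ powersetCard k (univ : Finset (Fin m)),
          fit (L.space ω X (L.info ω X (lab (par S) X))) (par S)
        ≤ ∑ S ∈ powersetCard k (univ : Finset (Fin m)), ∑ q : Fin Q,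
            fit (L.space ω X q) (par S) := by
          refine Finset.sum_le_sum fun S _ => ?_
          exact Finset.single_le_sum (f := fun q => fit (L.space ω X q) (par S))
            (fun q _ => fit_nonneg _ _) (Finset.mem_univ _)
      _ = ∑ q : Fin Q, ∑ S ∈ powersetCard k (univ : Finset (Fin m)),
            fit (L.space ω X q) (par S) := Finset.sum_comm
      _ ≤ ∑ q : Fin Q, (D : ℝ) := by
          refine Finset.sum_le_sum fun q _ => (fit_sum_le k (L.space ω X q)).trans ?_
          exact_mod_cast L.dim ω X q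
      _ = _ := by
          rw [Finset.sum_const, Finset.card_univ, Fintype.card_fin, nsmul_eq_mul]
  unfold valueAt
  rw [Finset.sum_comm]
  have h3 : ∀ ω : L.Ω, ∑ S ∈ powersetCard k (univ : Finset (Fin m)), L.prob ω *
      ((∑ X : Fin N → Fin m → Bool,
        fit (L.space ω X (L.info ω X (lab (par S) X))) (par S)) / 2 ^ (N * m)) ≤
      L.prob ω * (Q * D) := by
    intro ω
    rw [← Finset.mul_sum, ← Finset.sum_div, Finset.sum_comm]
    apply mul_le_mul_of_nonneg_left _ (L.prob_nonneg ω)
    rw [div_le_iff₀ (by positivity)]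
    refine (Finset.sum_le_sum fun X _ => h1 ω X).trans (le_of_eq ?_)
    rw [Finset.sum_const, Finset.card_univ, nsmul_eq_mul, mul_comm]
    congr 1
    rw [Fintype.card_fun, Fintype.card_fun, Fintype.card_bool, Fintype.card_fin,
      Fintype.card_fin, ← pow_mul, mul_comm m N]
    push_cast
    rfl
  refine (Finset.sum_le_sum fun ω _ => h3 ω).trans (le_of_eq ?_)
  rw [← Finset.sum_mul, L.prob_sum, one_mul]

theorem success_le {m N D Q : ℕ} (L : FeatureLearner m N D Q) {r : ℝ} (hr : 0 < r)
    (f : (Fin m → Bool) → Bool) : successAt L r f ≤ valueAt L f / r := by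
  letI := L.fin
  unfold successAt valueAt
  rw [Finset.sum_div]
  refine Finset.sum_le_sum fun ω _ => ?_
  rw [mul_div_assoc]
  apply mul_le_mul_of_nonneg_left _ (L.prob_nonneg ω)
  rw [div_right_comm]
  apply div_le_div_of_nonneg_right _ (by positivity)
  rw [le_div_iff₀ hr, Finset.card_filter]
  push_cast
  rw [Finset.sum_mul]
  refine Finset.sum_le_sum fun X _ => ?_
  split_ifs with h
  · obtain ⟨h, hh, hr⟩ := h
    rw [one_mul]
    exact hr.trans (le_fit hh _)
  · rw [zero_mul]
    exact fit_nonneg _ _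

/-- some parity of `k` variables is bad for the learner -/
theorem exists_bad {m N D Q : ℕ} (k : ℕ) (hk : k ≤ m) (L : FeatureLearner m N D Q) :
    ∃ S : Finset (Fin m), S.card = k ∧ valueAt L (par S) ≤ Q * D / m.choose k := by
  have hcard : (powersetCard k (univ : Finset (Fin m))).card = m.choose k := by
    rw [card_powersetCard, card_univ, Fintype.card_fin]
  have hpos : 0 < m.choose k := Nat.choose_pos hk
  have hne : (powersetCard k (univ : Finset (Fin m))).Nonempty := by
    rw [← card_pos, hcard]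
    exact hpos
  by_contra hcon
  push Not at hcon
  have h1 : ∑ _S ∈ powersetCard k (univ : Finset (Fin m)), (Q * D : ℝ) / m.choose k <
      ∑ S ∈ powersetCard k (univ : Finset (Fin m)), valueAt L (par S) :=
    sum_lt_sum_of_nonempty hne fun S hS => hcon S (mem_powersetCard.1 hS).2
  rw [sum_const, hcard, nsmul_eq_mul] at h1
  have h2 := value_sum k L
  have h3 : (m.choose k : ℝ) * ((Q * D : ℝ) / m.choose k) = Q * D := by
    have : (m.choose k : ℝ) ≠ 0 := by exact_mod_cast hpos.ne'
    field_simp
  rw [h3] at h1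
  linarith

end

end Pool.Agent.X245.DFS
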