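import Pool.Agent.X245.DFS.Core

set_option autoImplicit false

/-!
# Feature spaces and DNF formulas: the upper bound
-/

namespace Pool.Agent.X245.DFS

open Finset Pool.Agent.H963J Pool.Agent.X230.FS Pool.Agent.X249.LD

noncomputable section

/-- The space of the real polynomials of degree at most `w` in the `±1`-valued attributes: the span of
the products of at most `w` of them. -/
def lowSpace (m w : ℕ) : Submodule ℝ ((Fin m → Bool) → ℝ) :=
  Submodule.span ℝ ((fun (T : Finset (Fin m)) (x : Fin m → Bool) => chi x T) ''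
    (((univ : Finset (Finset (Fin m))).filter fun T => T.card ≤ w : Finset (Finset (Fin m))) :
      Set (Finset (Fin m))))

theorem finrank_lowSpace (m w : ℕ) : Module.finrank ℝ (lowSpace m w) ≤ low m w := by
  classical
  unfold lowSpace
  rw [← card_low, ← Finset.coe_image]
  exact (finrank_span_finset_le_card _).trans card_image_le

theorem hat_zero {m : ℕ} {h : (Fin m → Bool) → ℝ} {S T : Finset (Fin m)}
    (hdep : ∀ x y : Fin m → Bool, (∀ j ∈ S, x j = y j) → h x = h y) (hT : ¬ T ⊆ S) :
    hat h T = 0 := by
  obtain ⟨j, hj, hjS⟩ := Finset.not_subset.1 hT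
  let φ : (Fin m → Bool) → (Fin m → Bool) := fun x => Function.update x j (!x j)
  have hφ : Function.Involutive φ := by
    intro x
    funext i
    by_cases hi : i = j
    · subst hi
      simp [φ]
    · simp [φ, hi]
  have h1 : ∑ x, h x * chi x T = ∑ x, h (φ x) * chi (φ x) T :=
    (Equiv.sum_comp hφ.toPerm fun x => h x * chi x T).symm
  have h2 : ∀ x, h (φ x) * chi (φ x) T = -(h x * chi x T) := by
    intro x
    have e1 : h (φ x) = h x := by
      apply hdep
      intro i hi
      have : i ≠ j := fun e => hjS (e ▸ hi)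
      simp [φ, this]
    have e2 : chi (φ x) T = -chi x T := by
      unfold chi
      rw [← Finset.mul_prod_erase T _ hj, ← Finset.mul_prod_erase T (fun t => sg (x t)) hj]
      have e3 : ∏ t ∈ T.erase j, sg (φ x t) = ∏ t ∈ T.erase j, sg (x t) := by
        refine Finset.prod_congr rfl fun t ht => ?_
        have : t ≠ j := (Finset.mem_erase.1 ht).1
        simp [φ, this]
      rw [e3]
      have e4 : sg (φ x j) = -sg (x j) := by
        simp only [φ, Function.update_self]
        cases x j <;> simp [sg]
      rw [e4]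
      ring
    rw [e1, e2]
    ring
  unfold hat
  have h3 : ∑ x, h x * chi x T = 0 := by
    have h4 : ∑ x, h (φ x) * chi (φ x) T = -∑ x, h x * chi x T := by
      rw [← Finset.sum_neg_distrib]
      exact Finset.sum_congr rfl fun x _ => h2 x
    linarith
  rw [h3, zero_div]

theorem mem_lowSpace {m w : ℕ} {h : (Fin m → Bool) → ℝ} {S : Finset (Fin m)}
    (hdep : ∀ x y : Fin m → Bool, (∀ j ∈ S, x j = y j) → h x = h y) (hS : S.card ≤ w) :
    h ∈ lowSpace m w := by
  have h1 : h = ∑ T, hat h T • (fun x : Fin m → Bool => chi x T) := by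
    funext x
    rw [Finset.sum_apply]
    exact expand h x
  rw [h1]
  refine Submodule.sum_mem _ fun T _ => ?_
  by_cases hT : T ⊆ S
  · apply Submodule.smul_mem
    apply Submodule.subset_span
    exact ⟨T, by
      simp only [coe_filter, mem_univ, true_and, Set.mem_setOf_eq]
      exact (card_le_card hT).trans hS, rfl⟩
  · rw [hat_zero hdep hT, zero_smul]
    exact Submodule.zero_mem _

/-- the number of the points which agree with `y` on `S` -/
theorem card_agree {m : ℕ} (S : Finset (Fin m)) (y : Fin m → Bool) :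
    2 ^ S.card * (univ.filter fun x : Fin m → Bool => ∀ j ∈ S, x j = y j).card = 2 ^ m := by
  classical
  have h1 : (univ.filter fun x : Fin m → Bool => ∀ j ∈ S, x j = y j) =
      Fintype.piFinset fun j => if j ∈ S then {y j} else univ := by
    ext x
    simp only [mem_filter, mem_univ, true_and, Fintype.mem_piFinset]
    constructor
    · intro h j
      split_ifs with hj
      · rw [mem_singleton]
        exact h j hj
      · exact mem_univ _
    · intro h j hj
      have := h j
      rw [if_pos hj, mem_singleton] at this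
      exact this
  rw [h1, Fintype.card_piFinset]
  have h2 : ∀ j, (if j ∈ S then ({y j} : Finset Bool) else univ).card = if j ∈ S then 1 else 2 := by
    intro j
    split_ifs <;> simp
  simp_rw [h2]
  have h3 : 2 ^ S.card = ∏ j : Fin m, if j ∈ S then 2 else 1 := by
    rw [Finset.prod_ite, Finset.prod_const, Finset.prod_const_one, mul_one]
    congr 2
    ext j
    simp
  rw [h3, ← Finset.prod_mul_distrib]
  have h4 : ∀ j : Fin m, (if j ∈ S then 2 else 1) * (if j ∈ S then 1 else 2) = 2 := by
    intro j
    split_ifs <;> norm_num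
  rw [Finset.prod_congr rfl fun j _ => h4 j, Finset.prod_const, card_univ, Fintype.card_fin]

/-- The low degree polynomials fit every DNF formula a little. -/
theorem dnf_fit {m s : ℕ} (hs : 1 ≤ s) {f : (Fin m → Bool) → Bool} (hf : IsDNF s f) :
    1 / (4 * s : ℝ) ≤ fit (lowSpace m (Nat.log 2 (4 * s))) f := by
  classical
  obtain ⟨F, hF, hfx⟩ := hf
  have hs0 : (1 : ℝ) ≤ s := by exact_mod_cast hs
  obtain ⟨A, hA⟩ : ∃ A : Finset (Fin m → Bool), A = univ.filter fun x => f x = true := ⟨_, rfl⟩
  have h2m : (0 : ℝ) < 2 ^ m := by positivity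
  by_cases hcase : 4 * A.card < 2 ^ m
  · -- the constant function
    have h1 : (fun _ : Fin m → Bool => (1 : ℝ)) ∈ lowSpace m (Nat.log 2 (4 * s)) :=
      mem_lowSpace (S := ∅) (fun _ _ _ => rfl) (by simp)
    refine le_trans ?_ (le_fit h1 f)
    unfold corrSq
    have h2 : ∑ x, sg (f x) * (1 : ℝ) = 2 * A.card - 2 ^ m := by
      have h3 : ∀ x, sg (f x) * (1 : ℝ) = 2 * (if f x = true then (1 : ℝ) else 0) - 1 := by
        intro x
        cases f x <;> simp [sg]
        norm_num
      rw [Finset.sum_congr rfl fun x _ => h3 x, Finset.sum_sub_distrib, ← Finset.mul_sum,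
        Finset.sum_boole, ← hA, Finset.sum_const, Finset.card_univ, Fintype.card_fun,
        Fintype.card_bool, Fintype.card_fin]
      simp
    have h4 : ∑ _x : Fin m → Bool, (1 : ℝ) ^ 2 = 2 ^ m := by
      rw [Finset.sum_const, Finset.card_univ, Fintype.card_fun, Fintype.card_bool,
        Fintype.card_fin]
      simp
    rw [h2, h4]
    have h5 : (4 : ℝ) * A.card < 2 ^ m := by exact_mod_cast hcase
    have h6 : (0 : ℝ) ≤ A.card := Nat.cast_nonneg _
    have h7 : (1 : ℝ) / 4 ≤ (2 * A.card - 2 ^ m) ^ 2 / (2 ^ m * 2 ^ m) := by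
      rw [div_le_div_iff₀ (by norm_num) (by positivity)]
      nlinarith
    refine le_trans ?_ h7
    rw [div_le_div_iff₀ (by positivity) (by norm_num)]
    linarith
  · -- a term
    push Not at hcase
    obtain ⟨At, hAt⟩ : ∃ At : Finset (Fin m × Bool) → Finset (Fin m → Bool),
        At = fun t => univ.filter fun x => ∀ l ∈ t, x l.1 = l.2 := ⟨_, rfl⟩
    have hcov : A ⊆ F.biUnion At := by
      intro x hx
      rw [hA, mem_filter] at hx
      obtain ⟨t, ht, hl⟩ := (hfx x).1 hx.2
      rw [mem_biUnion]
      exact ⟨t, ht, by rw [hAt, mem_filter]; exact ⟨mem_univ _, hl⟩⟩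
    have hsum : A.card ≤ ∑ t ∈ F, (At t).card := (card_le_card hcov).trans card_biUnion_le
    obtain ⟨t, htF, ht⟩ : ∃ t ∈ F, A.card ≤ s * (At t).card := by
      by_contra hcon
      push Not at hcon
      have hApos : 0 < A.card := by
        have : 0 < 2 ^ m := by positivity
        omega
      rcases F.eq_empty_or_nonempty with h0 | h0
      · rw [h0, sum_empty] at hsum
        omega
      · have h1 : ∑ t ∈ F, s * (At t).card < ∑ _t ∈ F, A.card :=
          sum_lt_sum_of_nonempty h0 fun t ht => hcon t ht
        rw [sum_const, smul_eq_mul, ← mul_sum] at h1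
        have h2 : F.card * A.card ≤ s * A.card := Nat.mul_le_mul_right _ (by omega)
        have h3 : s * A.card ≤ s * ∑ t ∈ F, (At t).card := Nat.mul_le_mul_left _ hsum
        omega
    have hbig : 2 ^ m ≤ 4 * s * (At t).card := by
      calc 2 ^ m ≤ 4 * A.card := hcase
        _ ≤ 4 * (s * (At t).card) := Nat.mul_le_mul_left _ ht
        _ = _ := by ring
    have hpos : 0 < (At t).card := by
      by_contra h0
      push Not at h0
      have h1 : (At t).card = 0 := by omega
      rw [h1, mul_zero] at hbig
      have : 0 < 2 ^ m := by positivity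
      omega
    obtain ⟨y, hy⟩ := card_pos.1 hpos
    have hy' : ∀ l ∈ t, y l.1 = l.2 := by
      rw [hAt, mem_filter] at hy
      exact hy.2
    obtain ⟨S, hS⟩ : ∃ S : Finset (Fin m), S = t.image Prod.fst := ⟨_, rfl⟩
    have hiff : ∀ x : Fin m → Bool, (∀ l ∈ t, x l.1 = l.2) ↔ ∀ j ∈ S, x j = y j := by
      intro x
      rw [hS]
      constructor
      · intro h j hj
        obtain ⟨l, hl, rfl⟩ := mem_image.1 hj
        rw [h l hl, hy' l hl]
      · intro h l hl
        rw [h l.1 (mem_image_of_mem _ hl), hy' l hl]
    have hAtS : At t = univ.filter fun x : Fin m → Bool => ∀ j ∈ S, x j = y j := by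
      rw [hAt]
      ext x
      simp only [mem_filter, mem_univ, true_and]
      exact hiff x
    have hcard := card_agree S y
    rw [← hAtS] at hcard
    have hSw : S.card ≤ Nat.log 2 (4 * s) := by
      apply Nat.le_log_of_pow_le (by norm_num)
      have h1 : 2 ^ S.card * (At t).card ≤ 4 * s * (At t).card := by rw [hcard]; exact hbig
      exact Nat.le_of_mul_le_mul_right h1 hpos
    obtain ⟨h, hh⟩ : ∃ h : (Fin m → Bool) → ℝ, h = fun x =>
        if ∀ j ∈ S, x j = y j then (1 : ℝ) else 0 := ⟨_, rfl⟩
    have hmem : h ∈ lowSpace m (Nat.log 2 (4 * s)) := by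
      refine mem_lowSpace (S := S) (fun x x' hxx => ?_) hSw
      have h1 : (∀ j ∈ S, x j = y j) ↔ ∀ j ∈ S, x' j = y j :=
        ⟨fun h j hj => (hxx j hj).symm.trans (h j hj), fun h j hj => (hxx j hj).trans (h j hj)⟩
      rw [hh]
      simp only [h1]
    refine le_trans ?_ (le_fit hmem f)
    have e1 : ∑ x, sg (f x) * h x = (At t).card := by
      rw [hAtS, card_filter]
      push_cast
      refine Finset.sum_congr rfl fun x _ => ?_
      rw [hh]
      show sg (f x) * (if ∀ j ∈ S, x j = y j then (1 : ℝ) else 0) = _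
      split_ifs with h1
      · have h2 : f x = true := (hfx x).2 ⟨t, htF, (hiff x).2 h1⟩
        rw [h2]
        simp [sg]
      · rw [mul_zero]
    have e2 : ∑ x, h x ^ 2 = (At t).card := by
      rw [hAtS, card_filter]
      push_cast
      refine Finset.sum_congr rfl fun x _ => ?_
      rw [hh]
      show (if ∀ j ∈ S, x j = y j then (1 : ℝ) else 0) ^ 2 = _
      split_ifs <;> norm_num
    unfold corrSq
    rw [e1, e2]
    have h0 : (0 : ℝ) < (At t).card := by exact_mod_cast hpos
    have hb : (2 : ℝ) ^ m ≤ 4 * s * (At t).card := by exact_mod_cast hbig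
    rw [div_le_div_iff₀ (by positivity) (by positivity)]
    nlinarith

end

end Pool.Agent.X245.DFS
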